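import Pool.Agent.Q275.GQ.Stm2

/-! Project GQ (helper275), jobs CNT and CW. -/

set_option autoImplicit false

namespace Pool.Agent.Q151.GQ

open Finset Filter Topology MeasureTheory Pool.Agent.Q275.GQ
open scoped Classical

/-- the elements of the box with a given word and a given next digit -/
noncomputable def nd (P : Par) (K k : ℕ) (w : ℕ → ℤ) (d : ℤ) : ℕ :=
  ((Pool.Agent.Q275.GQ.box P K).filter (fun M => (∀ i < k, dig P ((A P)^[i] M) = w i) ∧
    dig P ((A P)^[k] M) = d)).card

theorem nd_le (hS : S_SHIFT) (P : Par) {K k : ℕ} (hk : k < K) (w : ℕ → ℤ) (d : ℤ) :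
    nd P K k w d ≤ nd P K k w ((d + 1) % P.a0) := by
  obtain ⟨h, hh⟩ := hS P k
  have ha0 := P.a0_pos
  have hQ : 0 < P.a0 ^ K := pow_pos ha0 K
  unfold nd
  refine Finset.card_le_card_of_injOn
    (fun M => ((M.1 + h.1) % P.a0 ^ K, (M.2 + h.2) % P.a0 ^ K)) ?_ ?_
  · intro M hM
    have hM' := Finset.mem_filter.1 (Finset.mem_coe.1 hM)
    obtain ⟨-, hw, hd⟩ := hM'
    have e : ((M.1 + h.1) % P.a0 ^ K, (M.2 + h.2) % P.a0 ^ K) =
        (M + h) + (P.a0 ^ K * (-((M.1 + h.1) / P.a0 ^ K), -((M.2 + h.2) / P.a0 ^ K)).1,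
          P.a0 ^ K * (-((M.1 + h.1) / P.a0 ^ K), -((M.2 + h.2) / P.a0 ^ K)).2) := by
      refine Prod.ext ?_ ?_
      · simp only [Prod.fst_add]
        have := Int.emod_add_mul_ediv (M.1 + h.1) (P.a0 ^ K)
        linarith
      · simp only [Prod.snd_add]
        have := Int.emod_add_mul_ediv (M.2 + h.2) (P.a0 ^ K)
        linarith
    obtain ⟨h1, h2⟩ := hh M
    refine Finset.mem_coe.2 (Finset.mem_filter.2 ⟨?_, ?_, ?_⟩)
    · simp only [Pool.Agent.Q275.GQ.box, Finset.mem_product, Finset.mem_Ico]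
      exact ⟨⟨Int.emod_nonneg _ hQ.ne', Int.emod_lt_of_pos _ hQ⟩,
        ⟨Int.emod_nonneg _ hQ.ne', Int.emod_lt_of_pos _ hQ⟩⟩
    · intro i hi
      simp only
      rw [e, dig_add P (hi.trans hk), h1 i hi]
      exact hw i hi
    · simp only
      rw [e, dig_add P hk, h2, hd]
  · intro M hM N hN hMN
    have hM' := (Finset.mem_filter.1 (Finset.mem_coe.1 hM)).1
    have hN' := (Finset.mem_filter.1 (Finset.mem_coe.1 hN)).1
    simp only [Pool.Agent.Q275.GQ.box, Finset.mem_product, Finset.mem_Ico] at hM' hN'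
    simp only [Prod.mk.injEq] at hMN
    obtain ⟨e1, e2⟩ := hMN
    have aux : ∀ a b c : ℤ, 0 ≤ a → a < P.a0 ^ K → 0 ≤ b → b < P.a0 ^ K →
        (a + c) % P.a0 ^ K = (b + c) % P.a0 ^ K → a = b := by
      intro a b c ha ha' hb hb' h
      have h3 : (a + c) ≡ (b + c) [ZMOD P.a0 ^ K] := h
      have h4 : a ≡ b [ZMOD P.a0 ^ K] := Int.ModEq.add_right_cancel' c h3
      have h5 : a % P.a0 ^ K = b % P.a0 ^ K := h4
      rwa [Int.emod_eq_of_lt ha ha', Int.emod_eq_of_lt hb hb'] at h5
    exact Prod.ext (aux _ _ _ hM'.1.1 hM'.1.2 hN'.1.1 hN'.1.2 e1)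
      (aux _ _ _ hM'.2.1 hM'.2.2 hN'.2.1 hN'.2.2 e2)

theorem nd_eq (hS : S_SHIFT) (P : Par) {K k : ℕ} (hk : k < K) (w : ℕ → ℤ) {d : ℤ} (h0 : 0 ≤ d)
    (h1 : d < P.a0) : nd P K k w d = nd P K k w 0 := by
  have ha0 := P.a0_pos
  set G : ℕ → ℕ := fun n => nd P K k w ((n : ℤ) % P.a0) with hG
  have hmono : Monotone G := by
    refine monotone_nat_of_le_succ fun n => ?_
    have h := nd_le hS P hk w ((n : ℤ) % P.a0)
    have e : ((n : ℤ) % P.a0 + 1) % P.a0 = ((n + 1 : ℕ) : ℤ) % P.a0 := by
      push_cast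
      rw [Int.emod_add_emod]
    rw [e] at h
    exact h
  obtain ⟨m, rfl⟩ := Int.eq_ofNat_of_zero_le h0
  have g0 : G 0 = nd P K k w 0 := by simp [hG]
  have gm : G m = nd P K k w (m : ℤ) := by
    simp only [hG]
    rw [Int.emod_eq_of_lt (by omega) h1]
  have ga : G P.a0.toNat = nd P K k w 0 := by
    simp only [hG]
    rw [Int.toNat_of_nonneg ha0.le, Int.emod_self]
  have hma : m ≤ P.a0.toNat := by omega
  have hA := hmono (Nat.zero_le m)
  have hB := hmono hma
  rw [g0, gm] at hA
  rw [gm, ga] at hB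
  omega

theorem cnt : S_SHIFT → S_CNT := by
  intro hS P K w hw
  have ha0 := P.a0_pos
  have key : ∀ k ≤ K, (((Pool.Agent.Q275.GQ.box P K).filter (fun M => ∀ i < k, dig P ((A P)^[i] M) = w i)).card : ℤ) *
      P.a0 ^ k = P.a0 ^ K * P.a0 ^ K := by
    intro k
    induction k with
    | zero =>
      intro _
      rw [Finset.filter_true_of_mem (by intro M _ i hi; omega), pow_zero, mul_one,
        Pool.Agent.Q275.GQ.box, Finset.card_product, Int.card_Ico]
      push_cast
      rw [sub_zero, Int.toNat_of_nonneg (pow_nonneg ha0.le K)]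
    | succ k ih =>
      intro hk
      have hk' : k < K := hk
      have h1 := ih hk'.le
      have e1 : ((Pool.Agent.Q275.GQ.box P K).filter (fun M => ∀ i < k, dig P ((A P)^[i] M) = w i)).card =
          ∑ d ∈ Ico (0 : ℤ) P.a0, nd P K k w d := by
        rw [Finset.card_eq_sum_card_fiberwise (f := fun M => dig P ((A P)^[k] M))
          (t := Ico (0 : ℤ) P.a0)]
        · refine Finset.sum_congr rfl fun d _ => ?_
          rw [Finset.filter_filter]
          rfl
        · intro M _
          exact Finset.mem_coe.2 (Finset.mem_Ico.2 ⟨dig_nonneg P _, dig_lt P _⟩)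
      have e2 : ∑ d ∈ Ico (0 : ℤ) P.a0, nd P K k w d = P.a0.toNat * nd P K k w (w k) := by
        rw [Finset.sum_congr rfl (g := fun _ => nd P K k w (w k))]
        · rw [Finset.sum_const, Int.card_Ico, sub_zero, smul_eq_mul]
        · intro d hd
          rw [Finset.mem_Ico] at hd
          rw [nd_eq hS P hk' w hd.1 hd.2, nd_eq hS P hk' w (hw k).1 (hw k).2]
      have e3 : (Pool.Agent.Q275.GQ.box P K).filter (fun M => ∀ i < k + 1, dig P ((A P)^[i] M) = w i) =
          (Pool.Agent.Q275.GQ.box P K).filter (fun M => (∀ i < k, dig P ((A P)^[i] M) = w i) ∧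
            dig P ((A P)^[k] M) = w k) := by
        refine Finset.filter_congr fun M _ => ?_
        constructor
        · intro h
          exact ⟨fun i hi => h i (by omega), h k (by omega)⟩
        · rintro ⟨h, h'⟩ i hi
          rcases Nat.lt_succ_iff_lt_or_eq.1 hi with h2 | h2
          · exact h i h2
          · subst h2
            exact h'
      rw [e3]
      change ((nd P K k w (w k) : ℕ) : ℤ) * P.a0 ^ (k + 1) = _
      rw [← h1, e1, e2]
      push_cast
      rw [Int.toNat_of_nonneg ha0.le]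
      ring
  have h := key K le_rfl
  exact mul_right_cancel₀ (pow_pos ha0 K).ne' h

theorem cw : S_CNT → S_CW := by
  intro hC P j l w hw
  have ha0 := P.a0_pos
  set F := (Pool.Agent.Q275.GQ.box P (j + l)).filter (fun M => ∀ i < l, dig P ((A P)^[j + i] M) = w i) with hF
  set f : ℤ × ℤ → (Fin j → ℤ) := fun M i => dig P ((A P)^[(i : ℕ)] M) with hf
  set t : Finset (Fin j → ℤ) := Fintype.piFinset (fun _ => Ico (0 : ℤ) P.a0) with ht
  have h1 : F.card = ∑ v ∈ t, (F.filter (fun M => f M = v)).card := by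
    refine Finset.card_eq_sum_card_fiberwise ?_
    intro M _
    rw [Finset.mem_coe, ht, Fintype.mem_piFinset]
    intro i
    exact Finset.mem_Ico.2 ⟨dig_nonneg P _, dig_lt P _⟩
  have h2 : ∀ v ∈ t, ((F.filter (fun M => f M = v)).card : ℤ) = P.a0 ^ (j + l) := by
    intro v hv
    rw [ht, Fintype.mem_piFinset] at hv
    have hu : ∀ i : ℕ, 0 ≤ (if h : i < j then v ⟨i, h⟩ else w (i - j)) ∧
        (if h : i < j then v ⟨i, h⟩ else w (i - j)) < P.a0 := by
      intro i
      by_cases h : i < j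
      · simp only [dif_pos h]
        exact Finset.mem_Ico.1 (hv ⟨i, h⟩)
      · simp only [dif_neg h]
        exact hw (i - j)
    rw [← hC P (j + l) (fun i => if h : i < j then v ⟨i, h⟩ else w (i - j)) hu]
    congr 2
    rw [hF, Finset.filter_filter]
    refine Finset.filter_congr fun M _ => ?_
    constructor
    · rintro ⟨h3, h4⟩ i hi
      by_cases h : i < j
      · simp only [dif_pos h]
        rw [← h4]
      · simp only [dif_neg h]
        have := h3 (i - j) (by omega)
        rwa [Nat.add_sub_cancel' (by omega)] at this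
    · intro h
      constructor
      · intro i hi
        have := h (j + i) (by omega)
        simp only [dif_neg (by omega : ¬ j + i < j)] at this
        rwa [Nat.add_sub_cancel_left] at this
      · funext i
        have := h i (by have := i.2; omega)
        simp only [dif_pos i.2] at this
        exact this
  have h3 : (t.card : ℤ) = P.a0 ^ j := by
    rw [ht, Fintype.card_piFinset]
    simp only [Int.card_Ico, sub_zero, Finset.prod_const, Finset.card_univ, Fintype.card_fin]
    push_cast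
    rw [Int.toNat_of_nonneg ha0.le]
  rw [h1]
  push_cast
  rw [Finset.sum_congr rfl h2, Finset.sum_const, nsmul_eq_mul, h3, ← pow_add]

end Pool.Agent.Q151.GQ
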