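import Pool.Agent.Q275.GQ.Stm2

/-! Project GQ (helper275), jobs DR and ABW. -/

set_option autoImplicit false

namespace Pool.Agent.Q151.GQ

open Finset Filter Topology MeasureTheory Pool.Agent.Q275.GQ
open scoped Classical

theorem int_mem_Icc {z : ℤ} {K : ℝ} (h : |(z : ℝ)| ≤ K) : z ∈ Set.Icc (-⌈K⌉) ⌈K⌉ := by
  have h1 := Int.le_ceil K
  have h2 := abs_le.1 h
  constructor
  · have : (-(⌈K⌉ : ℝ)) ≤ z := by linarith [h2.1]
    exact_mod_cast this
  · have : (z : ℝ) ≤ ⌈K⌉ := by linarith [h2.2]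
    exact_mod_cast this

theorem fin_ball (P : Par) (R : ℝ) : {c : ℤ × ℤ | ‖Pool.Agent.Q275.GQ.val P c‖ ≤ R}.Finite := by
  have hα : 0 < |P.α.im| := abs_pos.2 P.nr
  have ha2 := P.a2_pos
  have ha21 : (1 : ℝ) ≤ P.a2 := by exact_mod_cast P.h2
  set K2 : ℝ := R / (P.a2 * |P.α.im|) with hK2
  set K1 : ℝ := R + K2 * ‖(P.a2 : ℂ) * P.α + P.a1‖ with hK1
  refine ((Set.finite_Icc (-⌈K1⌉) ⌈K1⌉).prod (Set.finite_Icc (-⌈K2⌉) ⌈K2⌉)).subset ?_
  intro c hc
  have hc' : ‖Pool.Agent.Q275.GQ.val P c‖ ≤ R := hc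
  have him : (Pool.Agent.Q275.GQ.val P c).im = c.2 * (P.a2 * P.α.im) := by
    simp [Pool.Agent.Q275.GQ.val]
  have h1 : |(c.2 : ℝ)| ≤ K2 := by
    rw [hK2, le_div_iff₀ (mul_pos ha2 hα)]
    have h := Complex.abs_im_le_norm (Pool.Agent.Q275.GQ.val P c)
    rw [him, abs_mul, abs_mul, abs_of_pos ha2] at h
    linarith
  have h2 : |(c.1 : ℝ)| ≤ K1 := by
    have h3 : (c.1 : ℂ) * P.a2 = Pool.Agent.Q275.GQ.val P c - c.2 * (P.a2 * P.α + P.a1) := by
      simp only [Pool.Agent.Q275.GQ.val]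
      ring
    have h4 : ‖(c.1 : ℂ) * P.a2‖ = |(c.1 : ℝ)| * P.a2 := by
      rw [norm_mul, Complex.norm_intCast, Complex.norm_intCast, abs_of_pos ha2]
    have h5 : ‖(c.1 : ℂ) * P.a2‖ ≤ ‖Pool.Agent.Q275.GQ.val P c‖ + |(c.2 : ℝ)| * ‖(P.a2 : ℂ) * P.α + P.a1‖ := by
      rw [h3]
      refine (norm_sub_le _ _).trans ?_
      rw [norm_mul, Complex.norm_intCast]
    rw [h4] at h5
    have h6 : |(c.2 : ℝ)| * ‖(P.a2 : ℂ) * P.α + P.a1‖ ≤ K2 * ‖(P.a2 : ℂ) * P.α + P.a1‖ :=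
      mul_le_mul_of_nonneg_right h1 (norm_nonneg _)
    have h7 : |(c.1 : ℝ)| ≤ |(c.1 : ℝ)| * P.a2 := le_mul_of_one_le_right (abs_nonneg _) ha21
    rw [hK1]
    linarith
  exact ⟨int_mem_Icc h2, int_mem_Icc h1⟩

theorem dr : S_DR := by
  intro P v
  have hg : 0 < ‖P.α‖ - 1 := by linarith [P.gt]
  set R : ℝ := max ‖Pool.Agent.Q275.GQ.val P v‖ (P.a0 / (‖P.α‖ - 1)) with hR
  have ha0 : (0 : ℝ) < P.a0 := by exact_mod_cast P.a0_pos
  have hRa : (P.a0 : ℝ) ≤ (‖P.α‖ - 1) * R := by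
    have := le_max_right ‖Pool.Agent.Q275.GQ.val P v‖ (P.a0 / (‖P.α‖ - 1))
    rw [← hR, div_le_iff₀ hg] at this
    linarith
  have hα0 : 0 < ‖P.α‖ := by linarith [P.gt]
  refine ⟨(fin_ball P R).toFinset, ?_, ?_⟩
  · rw [Set.Finite.mem_toFinset]
    show ‖Pool.Agent.Q275.GQ.val P v‖ ≤ R
    exact le_max_left _ _
  · intro c hc
    rw [Set.Finite.mem_toFinset] at hc
    have hc' : ‖Pool.Agent.Q275.GQ.val P c‖ ≤ R := hc
    have hd0 : (0 : ℝ) ≤ dig P c := by exact_mod_cast dig_nonneg P c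
    have hd1 : (dig P c : ℝ) ≤ P.a0 := by exact_mod_cast (dig_lt P c).le
    constructor
    · rw [Set.Finite.mem_toFinset]
      show ‖Pool.Agent.Q275.GQ.val P (A P c)‖ ≤ R
      have h1 : P.α * Pool.Agent.Q275.GQ.val P (A P c) = Pool.Agent.Q275.GQ.val P c - dig P c := by
        rw [val_eq P c]
        ring
      have h2 : ‖P.α‖ * ‖Pool.Agent.Q275.GQ.val P (A P c)‖ ≤ ‖Pool.Agent.Q275.GQ.val P c‖ + dig P c := by
        rw [← norm_mul, h1]
        refine (norm_sub_le _ _).trans ?_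
        rw [Complex.norm_intCast, abs_of_nonneg hd0]
      have h3 : ‖P.α‖ * ‖Pool.Agent.Q275.GQ.val P (A P c)‖ ≤ ‖P.α‖ * R := by nlinarith
      exact le_of_mul_le_mul_left h3 hα0
    · rw [Set.Finite.mem_toFinset]
      show ‖Pool.Agent.Q275.GQ.val P (B P c)‖ ≤ R
      have h0 : Pool.Agent.Q275.GQ.val P (B P c) = Pool.Agent.Q275.GQ.val P (A P c) - (P.a2 * P.α + P.a1) := by
        simp only [Pool.Agent.Q275.GQ.val, A, B]
        push_cast
        ring
      have h1 : P.α * Pool.Agent.Q275.GQ.val P (B P c) = Pool.Agent.Q275.GQ.val P c + ((P.a0 - dig P c : ℝ) : ℂ) := by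
        rw [h0, val_eq P c]
        push_cast
        linear_combination (-1 : ℂ) * P.root
      have h2 : ‖P.α‖ * ‖Pool.Agent.Q275.GQ.val P (B P c)‖ ≤ ‖Pool.Agent.Q275.GQ.val P c‖ + (P.a0 - dig P c) := by
        rw [← norm_mul, h1]
        refine (norm_add_le _ _).trans ?_
        rw [Complex.norm_real, Real.norm_of_nonneg (by linarith)]
      have h3 : ‖P.α‖ * ‖Pool.Agent.Q275.GQ.val P (B P c)‖ ≤ ‖P.α‖ * R := by nlinarith
      exact le_of_mul_le_mul_left h3 hα0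

theorem run_congr (P : Par) (c : ℤ × ℤ) {w w' : ℕ → ℤ} : ∀ {k : ℕ}, (∀ i < k, w i = w' i) →
    run P c w k = run P c w' k := by
  intro k
  induction k with
  | zero => intro _; rfl
  | succ k ih =>
    intro h
    show stp P (run P c w k) (w k) = stp P (run P c w' k) (w' k)
    rw [ih fun i hi => h i (by omega), h k (by omega)]

theorem abw : S_ABS → S_ABW := by
  intro hA P D hD c hc
  set C : Finset (ℤ × ℤ) := D.filter (fun x => ∃ (w : ℕ → ℤ) (k : ℕ),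
    (∀ i, 0 ≤ w i ∧ w i < P.a0) ∧ run P c w k = x) with hC
  have ha0 := P.a0_pos
  have hne : C.Nonempty := by
    refine ⟨c, ?_⟩
    rw [hC, Finset.mem_filter]
    exact ⟨hc, fun _ => 0, 0, fun i => ⟨le_refl _, ha0⟩, rfl⟩
  have ext : ∀ (w : ℕ → ℤ) (k : ℕ) (d : ℤ), (∀ i, 0 ≤ w i ∧ w i < P.a0) → 0 ≤ d → d < P.a0 →
      ∃ (w' : ℕ → ℤ) (k' : ℕ), (∀ i, 0 ≤ w' i ∧ w' i < P.a0) ∧
        run P c w' k' = stp P (run P c w k) d := by
    intro w k d hw hd0 hd1
    refine ⟨Function.update w k d, k + 1, ?_, ?_⟩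
    · intro i
      by_cases hi : i = k
      · subst hi
        simp [hd0, hd1]
      · rw [Function.update_of_ne hi]
        exact hw i
    · show stp P (run P c (Function.update w k d) k) (Function.update w k d k) = _
      rw [Function.update_self, run_congr P c (w := Function.update w k d) (w' := w)]
      intro i hi
      rw [Function.update_of_ne hi.ne]
  have hcl : Cl P C := by
    intro x hx
    rw [hC, Finset.mem_filter] at hx
    obtain ⟨hxD, w, k, hw, hr⟩ := hx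
    constructor
    · rw [hC, Finset.mem_filter]
      refine ⟨(hD x hxD).1, ?_⟩
      obtain ⟨w', k', hw', hr'⟩ := ext w k 0 hw le_rfl ha0
      refine ⟨w', k', hw', ?_⟩
      rw [hr', hr]
      unfold stp
      rw [if_pos (by rw [zero_add]; exact dig_lt P x)]
    · intro hdig
      rw [hC, Finset.mem_filter]
      refine ⟨(hD x hxD).2, ?_⟩
      obtain ⟨w', k', hw', hr'⟩ := ext w k (P.a0 - 1) hw (by omega) (by omega)
      refine ⟨w', k', hw', ?_⟩
      rw [hr', hr]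
      unfold stp
      have h1 := dig_nonneg P x
      rw [if_neg (by omega)]
  have h0 := hA P C hne hcl
  rw [hC, Finset.mem_filter] at h0
  exact h0.2

end Pool.Agent.Q151.GQ
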