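import Pool.Agent.Q275.GQ.Stm

/-! Project GQ (helper275), job STAT. -/

set_option autoImplicit false

namespace Pool.Agent.Q151.GQ

open Finset Filter Topology MeasureTheory Pool.Agent.Q275.GQ
open scoped Classical

theorem stat : S_STAT := by
  intro P C hne hcl
  set p : ℤ × ℤ → ℝ := fun c => (dig P c : ℝ) / P.a0 with hp
  set N : Matrix C C ℝ := fun c c' => (1 - p c) * (if A P c = c' then 1 else 0) +
    p c * (if B P c = c' then 1 else 0) - (if (c : ℤ × ℤ) = c' then 1 else 0) with hN
  -- the rows of `N` applied to a function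
  have row : ∀ (h : ℤ × ℤ → ℂ) (c : C), ∑ c' : C, (N c c' : ℂ) * h c' =
      ((1 - p c : ℝ) : ℂ) * h (A P c) + ((p c : ℝ) : ℂ) * h (B P c) - h c := by
    intro h c
    have aux : ∀ x : ℤ × ℤ, x ∈ C → ∑ c' : C, ((if x = c' then (1 : ℝ) else 0 : ℝ) : ℂ) * h c' = h x := by
      intro x hx
      rw [Finset.sum_eq_single (⟨x, hx⟩ : C)]
      · simp
      · intro c' _ hc'
        have : x ≠ c' := fun h' => hc' (Subtype.ext h'.symm)
        simp [this]
      · intro h'
        exact absurd (Finset.mem_univ _) h'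
    have hA := aux (A P c) (hcl c c.2).1
    have hc := aux c c.2
    have hB : ((p c : ℝ) : ℂ) * ∑ c' : C, ((if B P c = c' then (1 : ℝ) else 0 : ℝ) : ℂ) * h c' =
        ((p c : ℝ) : ℂ) * h (B P c) := by
      by_cases hd : dig P c = 0
      · have : p c = 0 := by simp [hp, hd]
        rw [this]
        simp
      · rw [aux (B P c) ((hcl c c.2).2 hd)]
    rw [← hB, ← hA]
    rw [← hc]
    rw [Finset.mul_sum, Finset.mul_sum, ← Finset.sum_add_distrib, ← Finset.sum_sub_distrib]
    refine Finset.sum_congr rfl fun c' _ => ?_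
    simp only [hN]
    push_cast
    ring
  have hker : ∃ v : C → ℝ, v ≠ 0 ∧ N.mulVec v = 0 := by
    refine ⟨fun _ => 1, ?_, ?_⟩
    · obtain ⟨c, hc⟩ := hne
      intro h
      have := congrFun h ⟨c, hc⟩
      simp at this
    · funext c
      have h1 := row (fun _ => 1) c
      have h2 : ((∑ c' : C, N c c' : ℝ) : ℂ) = 0 := by
        push_cast
        simp only [mul_one] at h1
        rw [h1]
        push_cast
        ring
      have h3 : ∑ c' : C, N c c' = 0 := by exact_mod_cast h2
      simp only [Matrix.mulVec, dotProduct, mul_one, Pi.zero_apply]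
      exact h3
  have hdet : N.det = 0 := Matrix.exists_mulVec_eq_zero_iff.1 hker
  obtain ⟨v, hv0, hv⟩ := Matrix.exists_vecMul_eq_zero_iff.2 hdet
  refine ⟨fun x => if hx : x ∈ C then v ⟨x, hx⟩ else 0, ?_, ?_⟩
  · obtain ⟨c, hc⟩ := Function.ne_iff.1 hv0
    refine ⟨c, c.2, ?_⟩
    simp only [dif_pos c.2]
    exact hc
  · intro h
    have hcol : ∀ c' : C, ∑ c : C, (v c : ℂ) * (N c c' : ℂ) = 0 := by
      intro c'
      have := congrFun hv c'
      simp only [Matrix.vecMul, dotProduct, Pi.zero_apply] at this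
      exact_mod_cast this
    have h1 : ∑ c : C, (v c : ℂ) * (((1 - p c : ℝ) : ℂ) * h (A P c) + ((p c : ℝ) : ℂ) * h (B P c) -
        h c) = 0 := by
      calc ∑ c : C, (v c : ℂ) * (((1 - p c : ℝ) : ℂ) * h (A P c) + ((p c : ℝ) : ℂ) * h (B P c) -
            h c) = ∑ c : C, (v c : ℂ) * ∑ c' : C, (N c c' : ℂ) * h c' :=
              Finset.sum_congr rfl fun c _ => by rw [row h c]
        _ = ∑ c : C, ∑ c' : C, (v c : ℂ) * ((N c c' : ℂ) * h c') :=
              Finset.sum_congr rfl fun c _ => Finset.mul_sum _ _ _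
        _ = ∑ c' : C, ∑ c : C, (v c : ℂ) * ((N c c' : ℂ) * h c') := Finset.sum_comm
        _ = ∑ c' : C, (∑ c : C, (v c : ℂ) * (N c c' : ℂ)) * h c' :=
              Finset.sum_congr rfl fun c' _ => by
                rw [Finset.sum_mul]
                exact Finset.sum_congr rfl fun c _ => by ring
        _ = 0 := Finset.sum_eq_zero fun c' _ => by rw [hcol c', zero_mul]
    rw [← sub_eq_zero, ← Finset.sum_sub_distrib, ← Finset.sum_coe_sort, ← h1]
    refine Finset.sum_congr rfl fun c _ => ?_
    simp only [dif_pos c.2, hp]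
    ring

end Pool.Agent.Q151.GQ
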